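import Mathlib
import Pool.Agent.Q284.PX.Stm

/-!
# Project PX: the real family of local factors
-/

set_option autoImplicit false

open Finset Polynomial ComplexConjugate

namespace Pool.Agent.Q162.PX

open Pool.Agent.Q284.PX Pool.Agent.Q284.PS

theorem loc_const (d : ℕ) (hd : 2 ≤ d) (a : ℂ) :
    PowerSeries.constantCoeff (loc d a) = 1 := by
  unfold loc
  have h1 : d - 1 ≠ 0 := by omega
  have h2 : d ≠ 0 := by omega
  simp only [map_add, map_sub, map_one, map_mul, map_pow, PowerSeries.constantCoeff_X, mul_zero,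
    zero_pow h1, zero_pow h2, sub_zero, add_zero]

theorem hh_zero (d : ℕ) (hd : 2 ≤ d) (a : ℂ) : hh d a 0 = 1 := by
  unfold hh
  rw [PowerSeries.coeff_zero_eq_constantCoeff_apply, PowerSeries.constantCoeff_inv, loc_const d hd,
    inv_one]

theorem loc_conj (d : ℕ) (z : ℝ) :
    PowerSeries.map (starRingEnd ℂ) (loc d (z : ℂ)) = loc d (z : ℂ) := by
  unfold loc
  simp only [map_add, map_sub, map_one, map_mul, map_pow, map_neg, PowerSeries.map_X,
    PowerSeries.map_C, Complex.conj_ofReal]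

theorem hh_real (d : ℕ) (hd : 2 ≤ d) (z : ℝ) (k : ℕ) : hh d (z : ℂ) k = ((hh d (z : ℂ) k).re : ℂ) := by
  have h0 : PowerSeries.constantCoeff (loc d (z : ℂ)) ≠ 0 := by
    rw [loc_const d hd]
    exact one_ne_zero
  have h1 : (loc d (z : ℂ))⁻¹ * loc d (z : ℂ) = 1 := PowerSeries.inv_mul_cancel _ h0
  have h2 : PowerSeries.map (starRingEnd ℂ) (loc d (z : ℂ))⁻¹ = (loc d (z : ℂ))⁻¹ := by
    rw [PowerSeries.eq_inv_iff_mul_eq_one h0]
    have h3 := congrArg (PowerSeries.map (starRingEnd ℂ)) h1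
    rwa [map_mul, loc_conj, map_one] at h3
  have h3 : conj (hh d (z : ℂ) k) = hh d (z : ℂ) k := by
    have h4 := congrArg (PowerSeries.coeff k) h2
    rwa [PowerSeries.coeff_map] at h4
  exact (Complex.conj_eq_iff_re.1 h3).symm

/-- JOB FPS -/
theorem t_FPS (hLOC1 : S_LOC1) (hLOC2 : S_LOC2) : S_FPS := by
  intro d hd hev
  have hn : ∀ z : ℝ, |z| ≤ 1 / 100 → ‖(z : ℂ)‖ ≤ 1 / 4 := by
    intro z hz
    rw [Complex.norm_real, Real.norm_eq_abs]
    linarith
  refine ⟨fun z k => (hh d (z : ℂ) k).re, ⟨fun z => ?_, fun z hz => ?_, fun z k hz hk hk' => ?_,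
    fun z k hz => ?_⟩, fun z k _ => hh_real d (by omega) z k, fun z hz => ?_⟩
  · rw [hh_zero d (by omega), Complex.one_re]
  · rw [(hLOC1 d z (by omega) (hn z hz)).2.1 1 le_rfl (by omega), pow_one, Complex.ofReal_re]
  · rw [(hLOC1 d z (by omega) (hn z hz)).2.1 k (by omega) (by omega), ← Complex.ofReal_pow,
      Complex.ofReal_re, abs_pow]
    have h1 : |z| ^ k ≤ |z| ^ 2 := pow_le_pow_of_le_one (abs_nonneg _) (by linarith) hk
    rw [sq_abs] at h1
    nlinarith [sq_nonneg z]
  · have h1 := (hLOC1 d z (by omega) (hn z hz)).2.2.2 k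
    have h2 := Complex.abs_re_le_norm (hh d (z : ℂ) k)
    have h3 : (3 : ℝ) ^ ((k : ℝ) / d) ≤ (3 : ℝ) ^ ((k : ℝ) / 64) := by
      refine Real.rpow_le_rpow_of_exponent_le (by norm_num) ?_
      have hd' : (64 : ℝ) ≤ d := by
        have : (200 : ℝ) ≤ d := by exact_mod_cast hd
        linarith
      exact div_le_div_of_nonneg_left (Nat.cast_nonneg k) (by norm_num) hd'
    have h4 : 0 < (3 : ℝ) ^ ((k : ℝ) / 64) := Real.rpow_pos_of_pos (by norm_num) _
    linarith
  · obtain ⟨α, h1, h2, h3⟩ := hLOC2 d z (by omega) (hn z hz)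
    have h4 : ∀ w : ℂ, ∏ j, (1 - α j * w) = 1 - z * w - z * w ^ (d - 1) + w ^ d := by
      intro w
      have h5 := congrArg (Polynomial.eval w) h2
      rw [Polynomial.eval_prod] at h5
      simp only [Polynomial.eval_sub, Polynomial.eval_one, Polynomial.eval_mul, Polynomial.eval_C,
        Polynomial.eval_X, Polynomial.eval_add, Polynomial.eval_pow, hev.neg_one_pow, one_mul,
        Complex.conj_ofReal] at h5
      exact h5.symm
    refine ⟨α, h1, h3, h4, fun w => ?_⟩
    have h5 : ∏ j, (1 - conj (α j) * w) = conj (∏ j, (1 - α j * conj w)) := by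
      rw [map_prod]
      refine Finset.prod_congr rfl fun j _ => ?_
      rw [map_sub, map_one, map_mul, Complex.conj_conj]
    rw [h5, h4, h4, map_add, map_sub, map_sub, map_one, map_mul, map_mul, map_pow, map_pow,
      Complex.conj_conj, Complex.conj_ofReal]

end Pool.Agent.Q162.PX
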