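import Mathlib
import Pool.Agent.Q284.PX.Stm

/-!
# Project PX: real solutions of the moment equations
-/

set_option autoImplicit false

open Finset Polynomial ComplexConjugate

namespace Pool.Agent.Q162.PX

open Pool.Agent.Q284.PX

/-- JOB LINR -/
theorem t_LINR (hLIN : Pool.Agent.Q284.PS.S_LIN) : S_LINR := by
  intro α S ι _ φ lo t σ hlo hφ hc hσ ht
  obtain ⟨b, hb1, hb2, hb3⟩ := hLIN α S ι φ lo t hlo hφ hc
  refine ⟨fun x => (b x).re, fun i => ?_, ?_, fun x hx => ?_⟩
  · have h1 : ∀ x ∈ S, (((b x).re : ℝ) : ℂ) * φ i x =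
        (b x * φ i x + conj (b x * φ (σ i) x)) / 2 := by
      intro x hx
      rw [hσ i x hx, map_mul, Complex.conj_conj, Complex.re_eq_add_conj]
      ring
    rw [Finset.sum_congr rfl h1, ← Finset.sum_div, Finset.sum_add_distrib, ← map_sum, hb1, hb1,
      ht, Complex.conj_conj]
    ring
  · refine le_trans (Finset.sum_le_sum fun x _ => ?_) hb2
    have h1 := Complex.abs_re_le_norm (b x)
    calc (b x).re ^ 2 = |(b x).re| ^ 2 := (sq_abs _).symm
      _ ≤ ‖b x‖ ^ 2 := pow_le_pow_left₀ (abs_nonneg _) h1 2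
  · exact (Complex.abs_re_le_norm (b x)).trans (hb3 x hx)

end Pool.Agent.Q162.PX
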