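import Mathlib
import Pool.Agent.Q284.PX.Stm
import Pool.Agent.Q24.PS.ZB

/-!
# Project PX: job ZB2 (mass of the prime powers)
-/

set_option autoImplicit false

open Finset Polynomial ComplexConjugate

namespace Pool.Agent.Q162.PX

open Pool.Agent.Q284.PX
open Pool.Agent.Q284.PS (S_CPR PD PI qq BB)
open Pool.Agent.Q24.PS (mem_PI mem_PD card_PI three_le)

/-! ### numbers -/

theorem num_a (j : ℕ) (hj : 100 ≤ j) : 6 * 10 ^ 15 * (j : ℝ) ^ 6 ≤ 2 ^ j := by
  induction j, hj using Nat.le_induction with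
  | base => norm_num
  | succ n hn ih =>
    have h1 : (100 : ℝ) ≤ n := by exact_mod_cast hn
    have h2 : ((n : ℝ) + 1) ≤ 1.01 * n := by linarith
    have h3 : ((n : ℝ) + 1) ^ 6 ≤ (1.01 * n) ^ 6 := pow_le_pow_left₀ (by positivity) h2 6
    have h4 : (1.01 * (n : ℝ)) ^ 6 ≤ 2 * (n : ℝ) ^ 6 := by
      rw [mul_pow]
      exact mul_le_mul_of_nonneg_right (by norm_num) (by positivity)
    push_cast
    rw [pow_succ (2 : ℝ)]
    nlinarith

theorem num_b (j : ℕ) (hj : 100 ≤ j) : 2 * 10 ^ 7 * (j : ℝ) ^ 6 ≤ (17 / 10) ^ j := by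
  induction j, hj using Nat.le_induction with
  | base => norm_num
  | succ n hn ih =>
    have h1 : (100 : ℝ) ≤ n := by exact_mod_cast hn
    have h2 : ((n : ℝ) + 1) ≤ 1.01 * n := by linarith
    have h3 : ((n : ℝ) + 1) ^ 6 ≤ (1.01 * n) ^ 6 := pow_le_pow_left₀ (by positivity) h2 6
    have h4 : (1.01 * (n : ℝ)) ^ 6 ≤ (17 / 10) * (n : ℝ) ^ 6 := by
      rw [mul_pow]
      exact mul_le_mul_of_nonneg_right (by norm_num) (by positivity)
    push_cast
    rw [pow_succ ((17 : ℝ) / 10)]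
    nlinarith

theorem two_le_rpow {q : ℝ} (hq : 3 ≤ q) : 2 ≤ q ^ ((7 : ℝ) / 10) := by
  have h1 : (2 : ℝ) ^ (10 : ℕ) ≤ (q ^ ((7 : ℝ) / 10)) ^ (10 : ℕ) := by
    rw [← Real.rpow_natCast (q ^ ((7 : ℝ) / 10)), ← Real.rpow_mul (by linarith)]
    have e : (7 : ℝ) / 10 * ((10 : ℕ) : ℝ) = ((7 : ℕ) : ℝ) := by norm_num
    rw [e, Real.rpow_natCast]
    calc (2 : ℝ) ^ (10 : ℕ) ≤ 3 ^ (7 : ℕ) := by norm_num
      _ ≤ q ^ (7 : ℕ) := pow_le_pow_left₀ (by norm_num) hq 7
  exact le_of_pow_le_pow_left₀ (by norm_num) (Real.rpow_nonneg (by linarith) _) h1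

theorem x17_le_rpow {q : ℝ} (hq : 3 ≤ q) : 17 / 10 ≤ q ^ ((49 : ℝ) / 100) := by
  have h1 : ((17 : ℝ) / 10) ^ (100 : ℕ) ≤ (q ^ ((49 : ℝ) / 100)) ^ (100 : ℕ) := by
    rw [← Real.rpow_natCast (q ^ ((49 : ℝ) / 100)), ← Real.rpow_mul (by linarith)]
    have e : (49 : ℝ) / 100 * ((100 : ℕ) : ℝ) = ((49 : ℕ) : ℝ) := by norm_num
    rw [e, Real.rpow_natCast]
    calc ((17 : ℝ) / 10) ^ (100 : ℕ) ≤ 3 ^ (49 : ℕ) := by norm_num
      _ ≤ q ^ (49 : ℕ) := pow_le_pow_left₀ (by norm_num) hq 49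
  exact le_of_pow_le_pow_left₀ (by norm_num) (Real.rpow_nonneg (by linarith) _) h1

/-- the numerical inequality -/
theorem num_c {q : ℝ} (hq : 3 ≤ q) {d j : ℕ} (hd : 1000 ≤ d) (hj : 100 ≤ j) :
    (j : ℝ) * (4 * q ^ ((j : ℝ) / 32 + j / 100) + 10 * BB ^ 2 * q ^ ((j : ℝ) / 2)) ≤
      BB ^ 2 * om2 q d j / (10 ^ 6 * j) := by
  have hq0 : 0 < q := by linarith
  have hq1 : 1 ≤ q := by linarith
  have hjr : (100 : ℝ) ≤ j := by exact_mod_cast hj
  have hj0 : (0 : ℝ) < j := by linarith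
  have hdr : (1000 : ℝ) ≤ d := by exact_mod_cast hd
  have hd5 : 5 / (d : ℝ) ≤ 5 / 1000 := div_le_div_of_nonneg_left (by norm_num) (by norm_num) hdr
  have hE : 995 / 1000 * (j : ℝ) ≤ (1 - 5 / (d : ℝ)) * j := by nlinarith
  set E : ℝ := q ^ ((1 - 5 / (d : ℝ)) * j) with hEdef
  have hE0 : 0 < E := Real.rpow_pos_of_pos hq0 _
  -- the first part
  have h1 : 6 * 10 ^ 15 * (j : ℝ) ^ 6 * q ^ ((j : ℝ) / 32 + j / 100) ≤ E := by
    have h2 : (2 : ℝ) ^ j ≤ q ^ (((7 : ℝ) / 10) * j) := by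
      rw [Real.rpow_mul hq0.le, Real.rpow_natCast]
      exact pow_le_pow_left₀ (by norm_num) (two_le_rpow hq) j
    calc 6 * 10 ^ 15 * (j : ℝ) ^ 6 * q ^ ((j : ℝ) / 32 + j / 100) ≤
          q ^ (((7 : ℝ) / 10) * j) * q ^ ((j : ℝ) / 32 + j / 100) :=
          mul_le_mul_of_nonneg_right ((num_a j hj).trans h2) (Real.rpow_nonneg hq0.le _)
      _ = q ^ (((7 : ℝ) / 10) * j + ((j : ℝ) / 32 + j / 100)) := (Real.rpow_add hq0 _ _).symm
      _ ≤ E := Real.rpow_le_rpow_of_exponent_le hq1 (by linarith)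
  have h3 : 2 * 10 ^ 7 * (j : ℝ) ^ 6 * q ^ ((j : ℝ) / 2) ≤ E := by
    have h2 : ((17 : ℝ) / 10) ^ j ≤ q ^ (((49 : ℝ) / 100) * j) := by
      rw [Real.rpow_mul hq0.le, Real.rpow_natCast]
      exact pow_le_pow_left₀ (by norm_num) (x17_le_rpow hq) j
    calc 2 * 10 ^ 7 * (j : ℝ) ^ 6 * q ^ ((j : ℝ) / 2) ≤
          q ^ (((49 : ℝ) / 100) * j) * q ^ ((j : ℝ) / 2) :=
          mul_le_mul_of_nonneg_right ((num_b j hj).trans h2) (Real.rpow_nonneg hq0.le _)
      _ = q ^ (((49 : ℝ) / 100) * j + (j : ℝ) / 2) := (Real.rpow_add hq0 _ _).symm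
      _ ≤ E := Real.rpow_le_rpow_of_exponent_le hq1 (by linarith)
  have e1 : om2 q d j = E / (j : ℝ) ^ 4 := rfl
  rw [e1, le_div_iff₀ (by positivity)]
  have e2 : BB = 1 / 25600 := rfl
  rw [e2, mul_div_assoc', le_div_iff₀ (by positivity)]
  have h4 : 0 ≤ (j : ℝ) ^ 6 * q ^ ((j : ℝ) / 32 + j / 100) := by positivity
  nlinarith

theorem om2_le {q : ℝ} (hq : 3 ≤ q) {d m j : ℕ} (hm : 1 ≤ m) (hmj : 2 * m ≤ j) :
    om2 q d m ≤ q ^ ((j : ℝ) / 2) := by
  have hq0 : 0 < q := by linarith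
  have hm' : (1 : ℝ) ≤ m := by exact_mod_cast hm
  have hmj' : 2 * (m : ℝ) ≤ j := by exact_mod_cast hmj
  have h1 : om2 q d m ≤ q ^ ((1 - 5 / (d : ℝ)) * m) := by
    unfold om2
    exact div_le_self (Real.rpow_nonneg hq0.le _) (one_le_pow₀ hm')
  refine h1.trans (Real.rpow_le_rpow_of_exponent_le (by linarith) ?_)
  have h2 : 0 ≤ 5 / (d : ℝ) := by positivity
  nlinarith

theorem om2_nonneg {q : ℝ} (hq : 3 ≤ q) (d j : ℕ) : 0 ≤ om2 q d j := by
  unfold om2
  exact div_nonneg (Real.rpow_nonneg (by linarith) _) (by positivity)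

theorem w2_nonneg {q : ℝ} (hq : 3 ≤ q) (d j : ℕ) : 0 ≤ w2 q d j := by
  unfold w2
  exact div_nonneg (Real.rpow_nonneg (by linarith) _) (Real.rpow_nonneg (Nat.cast_nonneg _) _)

theorem w2_sq {q : ℝ} (hq : 3 ≤ q) (d : ℕ) {n : ℕ} (hn : 1 ≤ n) :
    w2 q d n ^ 2 = q ^ n / n * om2 q d n := by
  have hq0 : 0 < q := by linarith
  have hnr : (0 : ℝ) < n := by exact_mod_cast hn
  unfold w2 om2
  have e2 : (q ^ ((1 - 5 / (2 * (d : ℝ))) * n)) ^ 2 = q ^ n * q ^ ((1 - 5 / (d : ℝ)) * n) := by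
    rw [← Real.rpow_natCast, ← Real.rpow_mul hq0.le, ← Real.rpow_natCast q n, ← Real.rpow_add hq0]
    congr 1
    have h1 : 5 / (2 * (d : ℝ)) = 5 / (d : ℝ) / 2 := by
      rw [div_div, mul_comm]
    rw [h1]
    push_cast
    ring
  have e3 : ((n : ℝ) ^ ((5 : ℝ) / 2)) ^ 2 = n * (n : ℝ) ^ 4 := by
    rw [← Real.rpow_natCast, ← Real.rpow_mul hnr.le]
    norm_num
    ring
  rw [div_pow, e2, e3]
  field_simp

theorem om_le_w {q : ℝ} (hq : 3 ≤ q) (d : ℕ) {j : ℕ} (hj : 1 ≤ j) :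
    BB ^ 2 * om2 q d j / (10 ^ 6 * j) ≤ BB * w2 q d j := by
  have hq0 : 0 < q := by linarith
  have hjr : (1 : ℝ) ≤ j := by exact_mod_cast hj
  have e2 : BB = 1 / 25600 := rfl
  have hB : 0 ≤ BB := by rw [e2]; norm_num
  have h1 : om2 q d j ≤ w2 q d j := by
    unfold om2 w2
    refine div_le_div₀ (Real.rpow_nonneg hq0.le _) ?_ (Real.rpow_pos_of_pos (by linarith) _) ?_
    · refine Real.rpow_le_rpow_of_exponent_le (by linarith) ?_
      have h2 : 5 / (2 * (d : ℝ)) ≤ 5 / (d : ℝ) := by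
        have h3 : 5 / (2 * (d : ℝ)) = 5 / (d : ℝ) / 2 := by
          rw [div_div, mul_comm]
        have h4 : 0 ≤ 5 / (d : ℝ) := by positivity
        rw [h3]
        linarith
      nlinarith
    · rw [← Real.rpow_natCast]
      exact Real.rpow_le_rpow_of_exponent_le hjr (by norm_num)
  have h2 := om2_nonneg hq d j
  have h3 : BB ^ 2 ≤ BB := by
    rw [e2]
    norm_num
  calc BB ^ 2 * om2 q d j / (10 ^ 6 * j) ≤ BB ^ 2 * om2 q d j :=
        div_le_self (by positivity) (by nlinarith)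
    _ ≤ BB * w2 q d j := mul_le_mul h3 h1 h2 hB

section main

variable {F : Type} [Field F] [Fintype F]

/-- the sum over the primes of one small degree -/
theorem fibre2 (hC : S_CPR) (hq : 3 ≤ qq F) {d K N : ℕ} {h : ℝ → ℕ → ℝ} (hK : 100 ≤ K)
    (hh : LFam K h) {P₀ : F[X]} {a : F[X] → ℝ} (hG : Good F d N P₀ a)
    {j m k e : ℕ} (hj : j ≤ N) (hm : 1 ≤ m) (hk : 2 ≤ k) (hmk : j = m * k)
    (he1 : 1 ≤ e) (he2 : e ≤ 2) :
    ∑ P ∈ PI F m, |Lo h P₀ g0 a P k| ^ e ≤
      4 * qq F ^ ((j : ℝ) / 32 + j / 100) + 10 * BB ^ 2 * qq F ^ ((j : ℝ) / 2) := by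
  classical
  have hq1 : 1 ≤ qq F := by linarith
  have hq0 : 0 < qq F := by linarith
  have hmj : m ≤ j := by
    rw [hmk]
    exact Nat.le_mul_of_pos_right m (by omega)
  have hkj : k ≤ j := by
    rw [hmk]
    exact Nat.le_mul_of_pos_left k (by omega)
  have h2m : 2 * m ≤ j := by
    rw [hmk]
    nlinarith
  have hkr : (k : ℝ) ≤ j := by exact_mod_cast hkj
  by_cases hkK : k < K
  · -- small exponents
    have h1 : ∀ P ∈ PI F m, |Lo h P₀ g0 a P k| ^ e ≤ 10 * a P ^ 2 := by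
      intro P hP
      have ha := hG.small m (by omega) P hP
      have h2 : |Lo h P₀ g0 a P k| ≤ 10 * a P ^ 2 := by
        unfold Lo
        split_ifs with h0
        · have h3 : g0 k = 0 := by
            unfold g0
            rw [if_neg (by omega)]
          rw [h3, abs_zero]
          positivity
        · exact hh.mid _ _ ha hk hkK
      have h3 : a P ^ 2 ≤ 1 / 10000 := by
        have := pow_le_pow_left₀ (abs_nonneg _) ha 2
        rw [sq_abs] at this
        linarith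
      have h4 : |Lo h P₀ g0 a P k| ≤ 1 := by linarith
      calc |Lo h P₀ g0 a P k| ^ e ≤ |Lo h P₀ g0 a P k| ^ 1 :=
            pow_le_pow_of_le_one (abs_nonneg _) h4 he1
        _ ≤ 10 * a P ^ 2 := by
            rw [pow_one]
            exact h2
    have h2 := hG.l2 m hm (by omega)
    have h3 := om2_le hq (d := d) hm h2m
    have hB : 0 ≤ BB ^ 2 := sq_nonneg _
    calc ∑ P ∈ PI F m, |Lo h P₀ g0 a P k| ^ e ≤ ∑ P ∈ PI F m, 10 * a P ^ 2 := sum_le_sum h1
      _ = 10 * ∑ P ∈ PI F m, a P ^ 2 := (mul_sum _ _ _).symm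
      _ ≤ 10 * (BB ^ 2 * om2 (qq F) d m) := mul_le_mul_of_nonneg_left h2 (by norm_num)
      _ ≤ 10 * (BB ^ 2 * qq F ^ ((j : ℝ) / 2)) :=
          mul_le_mul_of_nonneg_left (mul_le_mul_of_nonneg_left h3 hB) (by norm_num)
      _ = 10 * BB ^ 2 * qq F ^ ((j : ℝ) / 2) := by ring
      _ ≤ _ := le_add_of_nonneg_left (by positivity)
  · -- large exponents
    have h1 : ∀ P ∈ PI F m, |Lo h P₀ g0 a P k| ^ e ≤ 4 * qq F ^ ((j : ℝ) / 32) := by
      intro P hP
      have ha := hG.small m (by omega) P hP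
      have h2 : |Lo h P₀ g0 a P k| ≤ 2 * qq F ^ ((j : ℝ) / 64) := by
        unfold Lo
        split_ifs with h0
        · have h3 : g0 k = 0 := by
            unfold g0
            rw [if_neg (by omega)]
          rw [h3, abs_zero]
          positivity
        · refine (hh.all _ _ ha).trans ?_
          refine mul_le_mul_of_nonneg_left ?_ (by norm_num)
          calc (3 : ℝ) ^ ((k : ℝ) / 64) ≤ qq F ^ ((k : ℝ) / 64) :=
                Real.rpow_le_rpow (by norm_num) hq (by positivity)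
            _ ≤ qq F ^ ((j : ℝ) / 64) := Real.rpow_le_rpow_of_exponent_le hq1 (by linarith)
      have h4 : 1 ≤ 2 * qq F ^ ((j : ℝ) / 64) := by
        have := Real.one_le_rpow hq1 (show 0 ≤ (j : ℝ) / 64 by positivity)
        linarith
      calc |Lo h P₀ g0 a P k| ^ e ≤ (2 * qq F ^ ((j : ℝ) / 64)) ^ e :=
            pow_le_pow_left₀ (abs_nonneg _) h2 e
        _ ≤ (2 * qq F ^ ((j : ℝ) / 64)) ^ 2 := pow_le_pow_right₀ h4 he2
        _ = 4 * qq F ^ ((j : ℝ) / 32) := by
            rw [mul_pow, ← Real.rpow_natCast (qq F ^ ((j : ℝ) / 64)), ← Real.rpow_mul hq0.le]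
            norm_num
            congr 1
            ring
    have h2 : ((PI F m).card : ℝ) ≤ qq F ^ ((j : ℝ) / 100) := by
      have h3 := card_PI (F := F) hC hm
      have h4 : (1 : ℝ) ≤ m := by exact_mod_cast hm
      have h5 : ((PI F m).card : ℝ) ≤ m * (PI F m).card := le_mul_of_one_le_left (by positivity) h4
      refine h5.trans (h3.trans ?_)
      rw [← Real.rpow_natCast]
      apply Real.rpow_le_rpow_of_exponent_le hq1
      have h6 : m * 100 ≤ j := by
        rw [hmk]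
        exact Nat.mul_le_mul_left m (by omega)
      have h7 : (m : ℝ) * 100 ≤ j := by exact_mod_cast h6
      linarith
    calc ∑ P ∈ PI F m, |Lo h P₀ g0 a P k| ^ e ≤ ∑ P ∈ PI F m, 4 * qq F ^ ((j : ℝ) / 32) :=
          sum_le_sum h1
      _ = (PI F m).card * (4 * qq F ^ ((j : ℝ) / 32)) := by rw [sum_const, nsmul_eq_mul]
      _ ≤ qq F ^ ((j : ℝ) / 100) * (4 * qq F ^ ((j : ℝ) / 32)) :=
          mul_le_mul_of_nonneg_right h2 (by positivity)
      _ = 4 * qq F ^ ((j : ℝ) / 32 + j / 100) := by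
          rw [Real.rpow_add hq0]
          ring
      _ ≤ _ := le_add_of_nonneg_right (by positivity)

/-- the sum over the primes of smaller degree -/
theorem small_sum2 (hC : S_CPR) (hq : 3 ≤ qq F) {d K N : ℕ} {h : ℝ → ℕ → ℝ} (hd : 1000 ≤ d)
    (hK : 100 ≤ K) (hh : LFam K h) {P₀ : F[X]} {a : F[X] → ℝ} (hG : Good F d N P₀ a)
    {j e : ℕ} (hj : j ≤ N) (he1 : 1 ≤ e) (he2 : e ≤ 2) (T : ℝ) (hT0 : 0 ≤ T)
    (hT : 100 ≤ j → j * (4 * qq F ^ ((j : ℝ) / 32 + j / 100) +
      10 * BB ^ 2 * qq F ^ ((j : ℝ) / 2)) ≤ T) :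
    ∑ P ∈ (PD F j).filter (fun P => P.natDegree < j),
      |Lo h P₀ g0 a P (j / P.natDegree)| ^ e ≤ T := by
  classical
  by_cases hjd : 100 ≤ j
  · refine le_trans ?_ (hT hjd)
    have h1 : ∀ P ∈ (PD F j).filter (fun P => P.natDegree < j), P.natDegree ∈ Icc 1 (j - 1) := by
      intro P hP
      rw [mem_filter, mem_PD] at hP
      have := hP.1.2.1.natDegree_pos
      rw [mem_Icc]
      omega
    rw [← sum_fiberwise_of_maps_to h1]
    have h2 : ∀ m ∈ Icc 1 (j - 1),
        ∑ P ∈ ((PD F j).filter (fun P => P.natDegree < j)).filter (fun P => P.natDegree = m),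
          |Lo h P₀ g0 a P (j / P.natDegree)| ^ e ≤
        4 * qq F ^ ((j : ℝ) / 32 + j / 100) + 10 * BB ^ 2 * qq F ^ ((j : ℝ) / 2) := by
      intro m hm
      rw [mem_Icc] at hm
      have hq0 : 0 < qq F := by linarith
      by_cases hmj : m ∣ j
      · obtain ⟨k, hk⟩ := hmj
        have hjm : j / m = k := by
          rw [hk]
          exact Nat.mul_div_cancel_left k (by omega)
        have hk2 : 2 ≤ k := by
          by_contra hcon
          have : k = 0 ∨ k = 1 := by omega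
          rcases this with h | h
          · rw [h] at hk
            omega
          · rw [h] at hk
            omega
        refine le_trans ?_ (fibre2 hC hq hK hh hG hj hm.1 hk2 hk he1 he2)
        have h3 : ((PD F j).filter (fun P => P.natDegree < j)).filter (fun P => P.natDegree = m) ⊆
            PI F m := by
          intro P hP
          rw [mem_filter, mem_filter, mem_PD] at hP
          rw [mem_PI]
          exact ⟨⟨hP.1.1.1.1, hP.2⟩, hP.1.1.2.1⟩
        have h4 : ∀ P ∈ ((PD F j).filter (fun P => P.natDegree < j)).filter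
            (fun P => P.natDegree = m),
            |Lo h P₀ g0 a P (j / P.natDegree)| ^ e = |Lo h P₀ g0 a P k| ^ e := by
          intro P hP
          rw [mem_filter] at hP
          rw [hP.2, hjm]
        rw [sum_congr rfl h4]
        exact sum_le_sum_of_subset_of_nonneg h3 (fun _ _ _ => by positivity)
      · have h3 : ((PD F j).filter (fun P => P.natDegree < j)).filter
            (fun P => P.natDegree = m) = ∅ := by
          apply eq_empty_of_forall_notMem
          intro P hP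
          rw [mem_filter, mem_filter, mem_PD] at hP
          apply hmj
          rw [← hP.2]
          exact hP.1.1.2.2
        rw [h3, sum_empty]
        positivity
    have hq0 : 0 < qq F := by linarith
    calc _ ≤ ∑ m ∈ Icc 1 (j - 1), (4 * qq F ^ ((j : ℝ) / 32 + j / 100) +
          10 * BB ^ 2 * qq F ^ ((j : ℝ) / 2)) := sum_le_sum h2
      _ = ((j - 1 : ℕ) : ℝ) * (4 * qq F ^ ((j : ℝ) / 32 + j / 100) +
          10 * BB ^ 2 * qq F ^ ((j : ℝ) / 2)) := by
          rw [sum_const, nsmul_eq_mul, Nat.card_Icc, Nat.add_sub_cancel]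
      _ ≤ _ := by
          apply mul_le_mul_of_nonneg_right _ (by positivity)
          exact_mod_cast Nat.sub_le j 1
  · -- all terms are zero
    have h1 : ∀ P ∈ (PD F j).filter (fun P => P.natDegree < j),
        |Lo h P₀ g0 a P (j / P.natDegree)| ^ e = 0 := by
      intro P hP
      rw [mem_filter, mem_PD] at hP
      obtain ⟨⟨⟨p1, p2⟩, p3, p4⟩, p5⟩ := hP
      obtain ⟨k, hk⟩ := p4
      have hpos := p3.natDegree_pos
      have hjm : j / P.natDegree = k := by
        conv_lhs => rw [hk]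
        exact Nat.mul_div_cancel_left k hpos
      have hk2 : 2 ≤ k := by
        by_contra hcon
        have : k = 0 ∨ k = 1 := by omega
        rcases this with h | h
        · rw [h] at hk
          omega
        · rw [h] at hk
          omega
      have hkj : k ≤ j := by
        rw [hk]
        exact Nat.le_mul_of_pos_left k hpos
      have hz := hG.zero P (by omega)
      have h4 : Lo h P₀ g0 a P k = 0 := by
        unfold Lo
        split_ifs with h0
        · unfold g0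
          rw [if_neg (by omega)]
        · have h5 := hh.mid (a P) k (by rw [hz, abs_zero]; norm_num) hk2 (by omega)
          rw [hz] at h5 ⊢
          have h6 : |h 0 k| ≤ 0 := by linarith [h5]
          exact abs_nonpos_iff.1 h6
      rw [hjm, h4, abs_zero, zero_pow (by omega)]
    rw [sum_eq_zero h1]
    exact hT0

/-- JOB ZB2 -/
theorem t_ZB2 : S_CPR → S_ZB2 := by
  classical
  intro hC
  refine ⟨1000, fun d hd F _ _ hF K h hK hh N P₀ a hG j hj1 hj => ?_⟩
  have hq := three_le (F := F) hF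
  have hq0 : 0 < qq F := by linarith
  have hB : 0 < BB := by
    unfold BB
    norm_num
  have hom := om2_nonneg hq d j
  have hww := w2_nonneg hq d j
  have hjr : (1 : ℝ) ≤ j := by exact_mod_cast hj1
  have s2 := small_sum2 hC hq hd hK hh hG (e := 2) hj (by norm_num) le_rfl
    (BB ^ 2 * om2 (qq F) d j / (10 ^ 6 * j)) (by positivity) (fun h => num_c hq hd h)
  have s1 := small_sum2 hC hq hd hK hh hG (e := 1) hj le_rfl (by norm_num)
    (BB * w2 (qq F) d j) (by positivity)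
    (fun h => (num_c hq hd h).trans (om_le_w hq d hj1))
  simp only [pow_one] at s1
  simp only [sq_abs] at s2
  -- the primes of degree `j`
  have hfil : (PD F j).filter (fun P => ¬ P.natDegree < j) = PI F j := by
    ext P
    rw [mem_filter, mem_PD, mem_PI]
    constructor
    · rintro ⟨⟨⟨h1, h2⟩, h3, _⟩, h4⟩
      exact ⟨⟨h1, by omega⟩, h3⟩
    · rintro ⟨⟨h1, h2⟩, h3⟩
      exact ⟨⟨⟨h1, h2.le⟩, h3, by rw [h2]⟩, by omega⟩
  have hterm : ∀ P ∈ PI F j, Lo h P₀ g0 a P (j / P.natDegree) = a P := by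
    intro P hP
    have h0 := hG.small j hj P hP
    rw [(mem_PI.1 hP).1.2, Nat.div_self (by omega)]
    unfold Lo
    split_ifs with h1
    · rw [h1, hG.spec]
      unfold g0
      rw [if_neg (by omega)]
    · exact hh.one _ h0
  have l2 := hG.l2 j hj1 hj
  have l1 : ∑ P ∈ PI F j, |a P| ≤ BB * w2 (qq F) d j := by
    apply le_of_pow_le_pow_left₀ (n := 2) (by norm_num) (by positivity)
    have h1 := sq_sum_le_card_mul_sum_sq (s := PI F j) (f := fun P => |a P|)
    have h2 := card_PI (F := F) hC hj1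
    have h3 : ((PI F j).card : ℝ) ≤ qq F ^ j / j := by
      rw [le_div_iff₀ (by linarith)]
      linarith
    simp only [sq_abs] at h1
    calc (∑ P ∈ PI F j, |a P|) ^ 2 ≤ (PI F j).card * ∑ P ∈ PI F j, a P ^ 2 := h1
      _ ≤ qq F ^ j / j * (BB ^ 2 * om2 (qq F) d j) :=
          mul_le_mul h3 l2 (Finset.sum_nonneg fun _ _ => sq_nonneg _) (by positivity)
      _ = (BB * w2 (qq F) d j) ^ 2 := by
          rw [mul_pow, w2_sq hq d hj1]
          ring
  have hsplit : ∀ f : F[X] → ℝ, ∑ P ∈ PD F j, f P =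
      ∑ P ∈ (PD F j).filter (fun P => P.natDegree < j), f P + ∑ P ∈ PI F j, f P := by
    intro f
    rw [← hfil, sum_filter_add_sum_filter_not]
  refine ⟨?_, ?_, s2⟩
  · rw [hsplit]
    have h1 : ∑ P ∈ PI F j, |Lo h P₀ g0 a P (j / P.natDegree)| = ∑ P ∈ PI F j, |a P| :=
      sum_congr rfl (fun P hP => by rw [hterm P hP])
    rw [h1]
    linarith
  · rw [hsplit]
    have h1 : ∑ P ∈ PI F j, Lo h P₀ g0 a P (j / P.natDegree) ^ 2 = ∑ P ∈ PI F j, a P ^ 2 :=
      sum_congr rfl (fun P hP => by rw [hterm P hP])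
    have h2 : BB ^ 2 * om2 (qq F) d j / (10 ^ 6 * j) ≤ BB ^ 2 * om2 (qq F) d j := by
      apply div_le_self (by positivity)
      nlinarith
    rw [h1]
    linarith

end main

end Pool.Agent.Q162.PX
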